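import Mathlib

/-!
# A quartic polynomial with a tiny negative minimum
-/

namespace Pool.Agent.W955.SN

open Finset

/-- `min (t ^ m) 1 ≤ t ^ 2` for `t ≥ 0` and `m ≥ 2`. -/
theorem min_pow_le {t : ℝ} (ht : 0 ≤ t) {m : ℕ} (hm : 2 ≤ m) : min (t ^ m) 1 ≤ t ^ 2 := by
  rcases le_total t 1 with h | h
  · exact (min_le_left _ _).trans (pow_le_pow_of_le_one ht h hm)
  · exact (min_le_right _ _).trans (one_le_pow₀ h)

/-- One step of the chain: deviating from `b` does not pay. -/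
theorem step {b v : ℝ} (hb : 0 ≤ b) {m : ℕ} (hm : 2 ≤ m) :
    -min ((4 * b) ^ m) 1 ≤ 16 * (v - b) ^ 2 - min ((2 * |v|) ^ m) 1 := by
  rcases le_or_gt |v| (2 * b) with h | h
  · have h1 : (2 * |v|) ^ m ≤ (4 * b) ^ m := by
      apply pow_le_pow_left₀ (by positivity)
      linarith
    have h2 : min ((2 * |v|) ^ m) 1 ≤ min ((4 * b) ^ m) 1 := min_le_min_right _ h1
    nlinarith [sq_nonneg (v - b)]
  · have h1 := min_pow_le (t := 2 * |v|) (by positivity) hm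
    have h2 : |v| / 2 ≤ |v - b| := by
      have := abs_sub_abs_le_abs_sub v b
      rw [abs_of_nonneg hb] at this
      linarith
    have h3 : (|v| / 2) ^ 2 ≤ (v - b) ^ 2 := by
      rw [← sq_abs (v - b)]
      exact pow_le_pow_left₀ (by positivity) h2 2
    have h4 : 0 ≤ min ((4 * b) ^ m) 1 := le_min (by positivity) zero_le_one
    nlinarith

theorem two_le_two_pow (N : ℕ) : 2 ≤ 2 ^ (N + 1) := by
  calc 2 = 2 ^ 1 := rfl
    _ ≤ 2 ^ (N + 1) := Nat.pow_le_pow_right (by norm_num) (by omega)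

theorem chain_aux (N : ℕ) : ∀ u : ℕ → ℝ, -min ((2 * |u 0|) ^ 2 ^ (N + 1)) 1 ≤
    16 * ∑ i ∈ range N, (u (i + 1) - u i ^ 2) ^ 2 + (u N ^ 4 - u N ^ 2) := by
  induction N with
  | zero =>
    intro u
    simp only [Finset.range_zero, Finset.sum_empty, mul_zero, zero_add, pow_one]
    rcases le_total ((2 * |u 0|) ^ 2) 1 with h | h
    · rw [min_eq_left h, mul_pow, sq_abs]
      nlinarith [sq_nonneg (u 0 ^ 2), sq_nonneg (u 0)]
    · rw [min_eq_right h]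
      nlinarith [sq_nonneg (u 0 ^ 2 - 1 / 2)]
  | succ N ih =>
    intro u
    have h1 := ih (fun i => u (i + 1))
    rw [Finset.sum_range_succ']
    have h2 := step (b := u 0 ^ 2) (v := u 1) (sq_nonneg _) (two_le_two_pow N)
    have h3 : (4 * u 0 ^ 2) ^ 2 ^ (N + 1) = (2 * |u 0|) ^ 2 ^ (N + 1 + 1) := by
      rw [pow_succ 2 (N + 1), mul_comm (2 ^ (N + 1)) 2, pow_mul]
      congr 1
      rw [mul_pow, sq_abs]
      norm_num
    rw [h3] at h2
    simp only [zero_add] at h1 ⊢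
    linarith

/-- **The lower bound.** -/
theorem chain_lower (N : ℕ) (u : ℕ → ℝ) : -(1 / 2 : ℝ) ^ 2 ^ (N + 1) ≤
    16 * (u 0 - 1 / 8) ^ 2 + 16 * ∑ i ∈ range N, (u (i + 1) - u i ^ 2) ^ 2 +
      (u N ^ 4 - u N ^ 2) := by
  have h1 := chain_aux N u
  have h2 := step (b := 1 / 8) (v := u 0) (by norm_num) (two_le_two_pow N)
  have h3 : min ((4 * (1 / 8) : ℝ) ^ 2 ^ (N + 1)) 1 ≤ (1 / 2 : ℝ) ^ 2 ^ (N + 1) := by
    refine (min_le_left _ _).trans (le_of_eq ?_)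
    norm_num
  linarith

/-- The negative value. -/
theorem chain_neg (N : ℕ) : ((1 / 8 : ℝ) ^ 2 ^ N) ^ 4 - ((1 / 8 : ℝ) ^ 2 ^ N) ^ 2 < 0 := by
  set t : ℝ := (1 / 8 : ℝ) ^ 2 ^ N with ht
  have h0 : 0 < t := by positivity
  have h1 : t < 1 := pow_lt_one₀ (by norm_num) (by norm_num) (by positivity)
  nlinarith [mul_pos h0 h0, mul_pos (mul_pos h0 h0) (sub_pos.2 h1)]

end Pool.Agent.W955.SN
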