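import Pool.Agent.W955.SN.Time
import Pool.Agent.H78R3.TSV.Mem

/-!
# Membership of SPECTRAL-NORM-EXCEED in `∃ℝ` and of SPECTRAL-NORM-BOUND in `∀ℝ`
-/

namespace Pool.Agent.NPC.W955SN

open Pool.Agent.NPC Pool.Agent.NPC.ER Pool.Agent.H78R3.TSV Pool.Agent.NPC.H78TSV Pool.Agent.W955.SN
open Pool.Agent.NPC.H670R2
open Finset

/-- The term for the value of the tensor. -/
def tT (d : ℕ) : Tm := sumTm ((List.range d).flatMap fun i => (List.range d).flatMap fun j =>
  (List.range d).map fun k => Tm.mul (Tm.mul (Tm.mul (Tm.var (vw d i j k)) (Tm.var (4 * i)))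
    (Tm.var (4 * j + 1))) (Tm.var (4 * k + 2)))

/-- The list of the formulas. -/
def gAll (q : List (List (List ℚ)) × ℚ) : List Fm :=
  fU q.1.length 0 :: fU q.1.length 1 :: fU q.1.length 2 ::
    eqRat (Tm.var (vs q.1.length)) q.2 ::
    (fEnt q.1 ++ [Fm.lt (Tm.var (vs q.1.length)) (tT q.1.length)])

/-- The formula for the excess. -/
def fSNE (q : List (List (List ℚ)) × ℚ) : Fm :=
  bif isCubeB q.1 && isPosB q.2 then conj (gAll q) else H670R2.ff

/-- The formula for the failure of the bound. -/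
def fSNB (q : List (List (List ℚ)) × ℚ) : Fm :=
  bif isCubeB q.1 && isPosB q.2 then conj (gAll q) else H612.tt

theorem sum_flatMap2 (n : ℕ) (l : List ℕ) (F : ℕ → ℕ → ℕ → Tm) (v : ℕ → ℝ) :
    ((l.flatMap fun i => (List.range n).flatMap fun j => (List.range n).map fun k =>
      F i j k).map (Tm.eval v)).sum =
      (l.map fun i => ∑ j ∈ range n, ∑ k ∈ range n, (F i j k).eval v).sum := by
  induction l with
  | nil => simp
  | cons a l ih =>
    simp only [List.flatMap_cons, List.map_append, List.sum_append, ih, List.map_cons,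
      List.sum_cons]
    rw [sum_flatMap_range, sum_list_range]

theorem eval_tT (d : ℕ) (v : ℕ → ℝ) : (tT d).eval v =
    ∑ i ∈ range d, ∑ j ∈ range d, ∑ k ∈ range d,
      v (vw d i j k) * v (4 * i) * v (4 * j + 1) * v (4 * k + 2) := by
  unfold tT
  rw [eval_sumTm, sum_flatMap2, sum_list_range]
  rfl

theorem holds_gAll (q : List (List (List ℚ)) × ℚ) (v : ℕ → ℝ) :
    (∀ φ ∈ gAll q, φ.Holds v) ↔ (fU q.1.length 0).Holds v ∧ (fU q.1.length 1).Holds v ∧
      (fU q.1.length 2).Holds v ∧ (eqRat (Tm.var (vs q.1.length)) q.2).Holds v ∧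
      (∀ φ ∈ fEnt q.1, φ.Holds v) ∧
      (Tm.var (vs q.1.length)).eval v < (tT q.1.length).eval v := by
  unfold gAll
  simp only [List.forall_mem_cons, List.forall_mem_append, List.not_mem_nil, false_imp_iff,
    implies_true, and_true, Fm.Holds]

theorem exc_iff_conj (q : List (List (List ℚ)) × ℚ) :
    Exc q.1.length (fun i j k => ((entry q.1 i j k : ℚ) : ℝ)) (q.2 : ℝ) ↔ ETR (conj (gAll q)) := by
  unfold ETR
  simp_rw [holds_conj, holds_gAll, holds_fU, holds_fEnt, holds_eqRat, eval_tT]
  set d := q.1.length with hd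
  constructor
  · rintro ⟨x, y, z, hx, hy, hz, g1⟩
    let v : ℕ → ℝ := fun n => if n % 4 = 0 then x (n / 4) else if n % 4 = 1 then y (n / 4) else
      if n % 4 = 2 then z (n / 4) else
      if n / 4 = d * d * d then (q.2 : ℝ) else
        ((entry q.1 (n / 4 / d / d) (n / 4 / d % d) (n / 4 % d) : ℚ) : ℝ)
    have v0 : ∀ i, v (4 * i) = x i := by
      intro i
      simp only [v]
      rw [if_pos (by omega)]
      congr 1; omega
    have v0' : ∀ i, v (4 * i + 0) = x i := v0
    have v1 : ∀ i, v (4 * i + 1) = y i := by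
      intro i
      simp only [v]
      rw [if_neg (by omega), if_pos (by omega)]
      congr 1; omega
    have v2 : ∀ i, v (4 * i + 2) = z i := by
      intro i
      simp only [v]
      rw [if_neg (by omega), if_neg (by omega), if_pos (by omega)]
      congr 1; omega
    have v3 : v (vs d) = (q.2 : ℝ) := by
      simp only [v, vs]
      rw [if_neg (by omega), if_neg (by omega), if_neg (by omega), if_pos (by omega)]
    have v4 : ∀ i < d, ∀ j < d, ∀ k < d, v (vw d i j k) = ((entry q.1 i j k : ℚ) : ℝ) := by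
      intro i hi j hj k hk
      have e0 : (4 * ((i * d + j) * d + k) + 3) / 4 = (i * d + j) * d + k := by omega
      have hd0 : 0 < d := by omega
      have e1 : ((i * d + j) * d + k) % d = k := by
        rw [Nat.mul_comm, Nat.mul_add_mod, Nat.mod_eq_of_lt hk]
      have e2 : ((i * d + j) * d + k) / d = i * d + j := by
        rw [Nat.mul_comm, Nat.mul_add_div hd0, Nat.div_eq_of_lt hk, Nat.add_zero]
      have e3 : (i * d + j) % d = j := by
        rw [Nat.mul_comm, Nat.mul_add_mod, Nat.mod_eq_of_lt hj]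
      have e4 : (i * d + j) / d = i := by
        rw [Nat.mul_comm, Nat.mul_add_div hd0, Nat.div_eq_of_lt hj, Nat.add_zero]
      have e5 : (i * d + j) * d + k ≠ d * d * d := by
        have h5 : i * d + j < d * d := by
          calc i * d + j < i * d + d := by omega
            _ = (i + 1) * d := by ring
            _ ≤ d * d := Nat.mul_le_mul_right _ hi
        have h6 : (i * d + j) * d + k < d * d * d := by
          calc (i * d + j) * d + k < (i * d + j) * d + d := by omega
            _ = (i * d + j + 1) * d := by ring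
            _ ≤ d * d * d := Nat.mul_le_mul_right _ h5
        omega
      simp only [v, vw]
      rw [if_neg (by omega), if_neg (by omega), if_neg (by omega), e0, if_neg e5, e2, e4, e1, e3]
    refine ⟨v, ?_, ?_, ?_, v3, v4, ?_⟩
    · simp_rw [v0']; exact hx
    · simp_rw [v1]; exact hy
    · simp_rw [v2]; exact hz
    · simp only [Tm.eval]
      rw [v3]
      refine lt_of_lt_of_eq g1 ?_
      exact Finset.sum_congr rfl fun i hi => Finset.sum_congr rfl fun j hj =>
        Finset.sum_congr rfl fun k hk => by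
          rw [v4 i (Finset.mem_range.1 hi) j (Finset.mem_range.1 hj) k (Finset.mem_range.1 hk),
            v0, v1, v2]
  · rintro ⟨v, hx, hy, hz, v3, v4, g1⟩
    simp only [Tm.eval] at v3 g1
    refine ⟨fun i => v (4 * i), fun i => v (4 * i + 1), fun i => v (4 * i + 2), hx, hy, hz, ?_⟩
    rw [← v3]
    refine lt_of_lt_of_eq g1 ?_
    exact Finset.sum_congr rfl fun i hi => Finset.sum_congr rfl fun j hj =>
      Finset.sum_congr rfl fun k hk => by
        rw [v4 i (Finset.mem_range.1 hi) j (Finset.mem_range.1 hj) k (Finset.mem_range.1 hk)]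

/-- **Correctness of the formula.** -/
theorem sne_iff_etr (q : List (List (List ℚ)) × ℚ) : SpectralNormExceed q ↔ ETR (fSNE q) := by
  rw [sne_iff]
  unfold fSNE
  by_cases hq : isCubeB q.1 = true ∧ isPosB q.2 = true
  · have hb : (isCubeB q.1 && isPosB q.2) = true := by rw [hq.1, hq.2]; rfl
    rw [hb, cond_true, ← exc_iff_conj]
    exact ⟨fun h => h.2.2, fun h => ⟨(isCubeB_iff _).1 hq.1, (isPosB_iff _).1 hq.2, h⟩⟩
  · have hb : (isCubeB q.1 && isPosB q.2) = false := by
      rw [Bool.eq_false_iff]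
      intro h
      exact hq (Bool.and_eq_true_iff.1 h)
    rw [hb, cond_false]
    constructor
    · rintro ⟨h1, h2, -⟩
      exact absurd ⟨(isCubeB_iff _).2 h1, (isPosB_iff _).2 h2⟩ hq
    · intro h
      exact absurd h H670R2.not_etr_ff

theorem snb_iff_etr (q : List (List (List ℚ)) × ℚ) : ¬ SpectralNormBound q ↔ ETR (fSNB q) := by
  unfold fSNB
  by_cases hq : isCubeB q.1 = true ∧ isPosB q.2 = true
  · have hb : (isCubeB q.1 && isPosB q.2) = true := by rw [hq.1, hq.2]; rfl
    have h1 := (isCubeB_iff _).1 hq.1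
    have h2 := (isPosB_iff _).1 hq.2
    rw [hb, cond_true, ← exc_iff_conj, not_bound_of h1 h2, sne_iff]
    exact ⟨fun h => h.2.2, fun h => ⟨h1, h2, h⟩⟩
  · have hb : (isCubeB q.1 && isPosB q.2) = false := by
      rw [Bool.eq_false_iff]
      intro h
      exact hq (Bool.and_eq_true_iff.1 h)
    rw [hb, cond_false]
    constructor
    · intro _
      exact ⟨fun _ => 0, H612.holds_tt _⟩
    · intro _ h
      exact absurd ⟨(isCubeB_iff _).2 h.1, (isPosB_iff _).2 h.2.1⟩ hq

section

variable {α : Type} [TEnc α]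

theorem poly_tT {d : α → ℕ} (hd : UPoly d) : Poly (fun a => tT (d a)) := by
  refine poly_sumTm (Poly.flatMap (F := fun a i => (List.range (d a)).flatMap fun j =>
    (List.range (d a)).map fun k => Tm.mul (Tm.mul (Tm.mul (Tm.var (vw (d a) i j k))
      (Tm.var (4 * i))) (Tm.var (4 * j + 1))) (Tm.var (4 * k + 2))) hd.range ?_)
  refine Poly.flatMap (F := fun (p : α × ℕ) j => (List.range (d p.1)).map fun k =>
    Tm.mul (Tm.mul (Tm.mul (Tm.var (vw (d p.1) p.2 j k))
      (Tm.var (4 * p.2))) (Tm.var (4 * j + 1))) (Tm.var (4 * k + 2)))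
    (hd.range.comp (Poly.fst Poly.id)) ?_
  refine Poly.map (F := fun (p : (α × ℕ) × ℕ) k =>
    Tm.mul (Tm.mul (Tm.mul (Tm.var (vw (d p.1.1) p.1.2 p.2 k))
      (Tm.var (4 * p.1.2))) (Tm.var (4 * p.2 + 1))) (Tm.var (4 * k + 2)))
    (hd.range.comp (Poly.fst (Poly.fst Poly.id))) ?_
  have e1 : Poly (fun p : ((α × ℕ) × ℕ) × ℕ => p.1.1.1) :=
    Poly.fst (Poly.fst (Poly.fst Poly.id))
  have e2 : Poly (fun p : ((α × ℕ) × ℕ) × ℕ => p.1.1.2) :=
    Poly.snd (Poly.fst (Poly.fst Poly.id))
  have e3 : Poly (fun p : ((α × ℕ) × ℕ) × ℕ => p.1.2) := Poly.snd (Poly.fst Poly.id)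
  have e4 : Poly (fun p : ((α × ℕ) × ℕ) × ℕ => p.2) := Poly.snd Poly.id
  exact poly_tmul (poly_tmul (poly_tmul (poly_tvar (poly_vw (hd.toPoly.comp e1) e2 e3 e4))
    (poly_lin0 e2)) (poly_lin e3 1)) (poly_lin e4 2)

theorem poly_valid : Poly (fun q : List (List (List ℚ)) × ℚ => isCubeB q.1 && isPosB q.2) := by
  have h1 : Poly (fun q : List (List (List ℚ)) × ℚ => q.1) := Poly.fst Poly.id
  have h2 : Poly (fun q : List (List (List ℚ)) × ℚ => q.2) := Poly.snd Poly.id
  have hd : UPoly (fun q : List (List (List ℚ)) × ℚ => q.1.length) := UPoly.length h1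
  refine Poly.and ?_ ?_
  · refine Poly.all (p := fun (q : List (List (List ℚ)) × ℚ) a =>
      decide (a.length = q.1.length) && a.all fun b => decide (b.length = q.1.length)) h1 ?_
    refine Poly.and (Poly.decide_eq (Poly.length (Poly.snd Poly.id))
      (hd.toPoly.comp (Poly.fst Poly.id))) ?_
    refine Poly.all (p := fun (r : (List (List (List ℚ)) × ℚ) × List (List ℚ)) b =>
      decide (b.length = r.1.1.length)) (Poly.snd Poly.id) ?_
    exact Poly.decide_eq (Poly.length (Poly.snd Poly.id))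
      (hd.toPoly.comp (Poly.fst (Poly.fst Poly.id)))
  · exact Poly.and (Poly.not (poly_isNeg (poly_ratNum h2)))
      (Poly.not (Poly.decide_eq (poly_natAbs (poly_ratNum h2)) (Poly.const 0)))

theorem poly_gAll : Poly gAll := by
  have h1 : Poly (fun q : List (List (List ℚ)) × ℚ => q.1) := Poly.fst Poly.id
  have h2 : Poly (fun q : List (List (List ℚ)) × ℚ => q.2) := Poly.snd Poly.id
  have hd : UPoly (fun q : List (List (List ℚ)) × ℚ => q.1.length) := UPoly.length h1
  exact Poly.cons (poly_fU hd 0) (Poly.cons (poly_fU hd 1) (Poly.cons (poly_fU hd 2)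
      (Poly.cons (poly_eqRat (poly_tvar (poly_vs hd.toPoly)) h2)
        (Poly.append (poly_fEnt h1)
          (Poly.cons (poly_lt (poly_tvar (poly_vs hd.toPoly)) (poly_tT hd)) (Poly.const []))))))

theorem poly_fSNE : Poly fSNE := Poly.cond poly_valid (poly_conj poly_gAll) (Poly.const _)

theorem poly_fSNB : Poly fSNB := Poly.cond poly_valid (poly_conj poly_gAll) (Poly.const _)

end

/-- SPECTRAL-NORM-EXCEED belongs to `∃ℝ`. -/
theorem exceed_mem : InER (lang SpectralNormExceed) :=
  ER.InER.of_poly poly_fSNE sne_iff_etr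

/-- SPECTRAL-NORM-BOUND belongs to `∀ℝ`. -/
theorem bound_mem : InAR (lang SpectralNormBound) :=
  ER.InAR.of_poly poly_fSNB snb_iff_etr

end Pool.Agent.NPC.W955SN
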