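import Pool.Agent.W955.SN.Spec
import Pool.Agent.H78R3.TSV.Time
import Pool.Agent.H612.AR

/-!
# The reduction
-/

namespace Pool.Agent.W955.SN

open Finset Pool.Agent.NPC Pool.Agent.NPC.ER Pool.Agent.H78R3.TSV

theorem psys_ok (T : List ER.Con) (L : ℕ) : ∀ g ∈ psys T L, GOk (pn T L) g := by
  intro g hg
  unfold psys at hg
  simp only [List.mem_append, List.mem_cons, List.mem_map, List.mem_range, List.not_mem_nil,
    or_false] at hg
  rcases hg with ⟨c, hc, rfl⟩ | ⟨r, hr, rfl⟩ | rfl | ⟨i, hi, rfl⟩ | rfl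
  · cases c with
    | one i =>
      have h1 := ix_lt hc (i := i) (by simp [Con.vars])
      refine ⟨⟨by simp [hcon], ?_, ?_⟩, ⟨by simp [hcon], ?_, ?_⟩, ⟨by simp [hcon], ?_, ?_⟩⟩ <;>
        simp only [hcon, pn] <;> omega
    | add i j k =>
      have h1 := ix_lt hc (i := i) (by simp [Con.vars])
      have h2 := ix_lt hc (i := j) (by simp [Con.vars])
      have h3 := ix_lt hc (i := k) (by simp [Con.vars])
      refine ⟨⟨by simp [hcon], ?_, ?_⟩, ⟨by simp [hcon], ?_, ?_⟩, ⟨by simp [hcon], ?_, ?_⟩⟩ <;>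
        simp only [hcon, pn] <;> omega
    | mul i j k =>
      have h1 := ix_lt hc (i := i) (by simp [Con.vars])
      have h2 := ix_lt hc (i := j) (by simp [Con.vars])
      have h3 := ix_lt hc (i := k) (by simp [Con.vars])
      refine ⟨⟨by simp [hcon], ?_, ?_⟩, ⟨by simp [hcon], ?_, ?_⟩, ⟨by simp [hcon], ?_, ?_⟩⟩ <;>
        simp only [hcon, pn] <;> omega
  · refine ⟨⟨by simp [slack4], ?_, ?_⟩, ⟨by simp [slack4], ?_, ?_⟩, ⟨by simp [slack4], ?_, ?_⟩⟩ <;>
      simp only [slack4, pn] <;> omega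
  · refine ⟨⟨by simp [cstart], ?_, ?_⟩, ⟨by simp [cstart], ?_, ?_⟩, ⟨by simp [cstart], ?_, ?_⟩⟩ <;>
      simp only [cstart, pn] <;> omega
  · refine ⟨⟨by simp [cstep], ?_, ?_⟩, ⟨by simp [cstep], ?_, ?_⟩, ⟨by simp [cstep], ?_, ?_⟩⟩ <;>
      simp only [cstep, pn] <;> omega
  · refine ⟨⟨by simp [cend], ?_, ?_⟩, ⟨by simp [cend], ?_, ?_⟩, ⟨by simp [cend], ?_, ?_⟩⟩ <;>
      simp only [cend, pn] <;> omega

theorem psys_size (T : List ER.Con) (L : ℕ) : ∀ g ∈ psys T L, csize g ≤ 16 := by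
  intro g hg
  unfold psys at hg
  simp only [List.mem_append, List.mem_cons, List.mem_map, List.mem_range, List.not_mem_nil,
    or_false] at hg
  rcases hg with ⟨c, hc, rfl⟩ | ⟨r, hr, rfl⟩ | rfl | ⟨i, hi, rfl⟩ | rfl
  · cases c <;> simp [csize, hcon]
  · simp [csize, slack4]
  · simp [csize, cstart]
  · simp [csize, cstep]
  · simp [csize, cend]

theorem psys_ne_nil (T : List ER.Con) (L : ℕ) : psys T L ≠ [] := by simp [psys]

/-- The constraints of the instance. -/
def iG (S : List ER.Con) : List QC := psys (bsys S) (cl (bsys S))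

/-- The number of variables of the instance. -/
def iN (S : List ER.Con) : ℕ := pn (bsys S) (cl (bsys S))

/-- The forms of the instance. -/
def iF (S : List ER.Con) : List (List QT) := bforms (iN S) (iG S) (0, pl (bsys S) (cl (bsys S)))

/-- The instance: a tensor and a number. -/
def inst2 (S : List ER.Con) : List (List (List ℚ)) × ℚ :=
  (tenL (iN S + (iF S).length) (iF S), (((48 * (iG S).length : ℕ) : ℤ) : ℚ))

theorem exc_congr {d : ℕ} {t t' : ℕ → ℕ → ℕ → ℝ} {σ : ℝ}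
    (h : ∀ i < d, ∀ j < d, ∀ k < d, t i j k = t' i j k) : Exc d t σ ↔ Exc d t' σ := by
  have key : ∀ t t' : ℕ → ℕ → ℕ → ℝ, (∀ i < d, ∀ j < d, ∀ k < d, t i j k = t' i j k) →
      Exc d t σ → Exc d t' σ := by
    rintro t t' h ⟨x, y, z, hx, hy, hz, h1⟩
    refine ⟨x, y, z, hx, hy, hz, ?_⟩
    refine lt_of_lt_of_eq h1 ?_
    exact Finset.sum_congr rfl fun i hi => Finset.sum_congr rfl fun j hj =>
      Finset.sum_congr rfl fun k hk => by
        rw [h i (Finset.mem_range.1 hi) j (Finset.mem_range.1 hj) k (Finset.mem_range.1 hk)]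
  exact ⟨key t t' h, key t' t fun i hi j hj k hk => (h i hi j hj k hk).symm⟩

/-- The problem with nested lists. -/
theorem sne_iff (q : List (List (List ℚ)) × ℚ) : SpectralNormExceed q ↔ IsCube q.1 ∧ 0 < q.2 ∧
    Exc q.1.length (fun i j k => ((entry q.1 i j k : ℚ) : ℝ)) (q.2 : ℝ) := by
  unfold SpectralNormExceed
  constructor
  · rintro ⟨h1, h2, h3⟩
    exact ⟨h1, h2, (lt_spectralNorm_iff_exc (fun i j k => ((entry q.1 i j k : ℚ) : ℝ))
      (by exact_mod_cast h2)).1 h3⟩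
  · rintro ⟨h1, h2, h3⟩
    exact ⟨h1, h2, (lt_spectralNorm_iff_exc (fun i j k => ((entry q.1 i j k : ℚ) : ℝ))
      (by exact_mod_cast h2)).2 h3⟩

theorem sne_tenL (d : ℕ) (L : List (List QT)) (q : ℚ) (hq : 0 < q) :
    SpectralNormExceed (tenL d L, q) ↔ Exc d (fun i j k => (ten L i j k : ℝ)) (q : ℝ) := by
  rw [sne_iff]
  have h3 : (tenL d L).length = d := length_tenL _ _
  simp only [h3]
  have key := exc_congr (d := d) (t := fun i j k => (ten L i j k : ℝ))
    (t' := fun i j k => ((entry (tenL d L) i j k : ℚ) : ℝ)) (σ := (q : ℝ))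
    (fun i hi j hj k hk => by
      show (ten L i j k : ℝ) = ((entry (tenL d L) i j k : ℚ) : ℝ)
      rw [entry_tenL hi hj hk]
      push_cast
      rfl)
  rw [key]
  exact ⟨fun h => h.2.2, fun h => ⟨isCube_tenL _ _, hq, h⟩⟩

theorem QF4_eq (T : List ER.Con) (L : ℕ) (x : ℕ → ℝ) :
    QF4 (psys T L) (0, pl T L) x = QH T L x := by
  unfold QF4 QH
  rfl

theorem QF4_iG (S : List ER.Con) (x : ℕ → ℝ) :
    QF4 (iG S) (0, pl (bsys S) (cl (bsys S))) x = QH (bsys S) (cl (bsys S)) x := by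
  unfold iG
  exact QF4_eq _ _ _

/-- The equivalence, for a named list of forms. -/
theorem exc_iff' {n : ℕ} {G : List QC} {p : ℕ × ℕ} {F : List (List QT)} (hF : F = bforms n G p)
    (hG : ∀ g ∈ G, GOk n g) (hs : ∀ g ∈ G, csize g ≤ 16) (hp1 : p.1 < n) (hp2 : p.2 < n)
    (hne : G ≠ []) :
    SpectralNormExceed (tenL (n + F.length) F, (((48 * G.length : ℕ) : ℤ) : ℚ)) ↔
      ∃ x, QF4 G p x < 0 ∧ 0 < ∑ i ∈ range n, x i ^ 2 := by
  have hpos : 0 < G.length := List.length_pos_iff.2 hne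
  have h2 : (0 : ℚ) < (((48 * G.length : ℕ) : ℤ) : ℚ) := by
    exact_mod_cast (by omega : 0 < 48 * G.length)
  have h4 : (((((48 * G.length : ℕ) : ℤ) : ℚ)) : ℝ) = 48 * (G.length : ℝ) := by
    push_cast
    ring
  rw [sne_tenL _ _ _ h2, h4]
  subst hF
  exact exc_iff hG hs hp1 hp2 hne (Nat.le_add_right _ _) (Nat.le_add_left _ _)

theorem iG_ok (S : List ER.Con) : ∀ g ∈ iG S, GOk (iN S) g := psys_ok (bsys S) (cl (bsys S))

theorem iG_size (S : List ER.Con) : ∀ g ∈ iG S, csize g ≤ 16 := psys_size (bsys S) (cl (bsys S))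

theorem iG_ne (S : List ER.Con) : iG S ≠ [] := psys_ne_nil (bsys S) (cl (bsys S))

theorem pl_lt (S : List ER.Con) : pl (bsys S) (cl (bsys S)) < iN S := by
  unfold pl iN pn
  omega

theorem iN_pos (S : List ER.Con) : 0 < iN S := by
  unfold iN pn
  omega

/-- **Correctness of the reduction.** -/
theorem sat_iff_exceed (S : List ER.Con) : Sat S ↔ SpectralNormExceed (inst2 S) := by
  unfold inst2
  rw [exc_iff' (F := iF S) (n := iN S) (G := iG S) (p := (0, pl (bsys S) (cl (bsys S)))) rfl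
    (iG_ok S) (iG_size S) (iN_pos S) (pl_lt S) (iG_ne S), sat_iff_QH_neg]
  constructor
  · rintro ⟨x, hx⟩
    refine ⟨x, by rw [QF4_iG]; exact hx, ?_⟩
    have h0 : x 0 ≠ 0 := fun h => absurd (QH_zero (bsys S) (cl (bsys S)) x h) (not_le.2 hx)
    have h1 : x 0 ^ 2 ≤ ∑ i ∈ range (iN S), x i ^ 2 := sq_le_sum x (iN_pos S)
    have h3 : 0 < x 0 ^ 2 := by positivity
    linarith
  · rintro ⟨x, hx, _⟩
    rw [QF4_iG] at hx
    exact ⟨x, hx⟩

/-- The bound is the negation of the excess, on valid instances. -/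
theorem bound_iff (q : List (List (List ℚ)) × ℚ) : SpectralNormBound q ↔
    IsCube q.1 ∧ 0 < q.2 ∧ ¬ SpectralNormExceed q := by
  unfold SpectralNormBound SpectralNormExceed
  constructor
  · rintro ⟨h1, h2, h3⟩
    exact ⟨h1, h2, fun h => absurd h.2.2 (not_lt.2 h3)⟩
  · rintro ⟨h1, h2, h3⟩
    exact ⟨h1, h2, not_lt.1 fun h => h3 ⟨h1, h2, h⟩⟩

theorem inst2_fst (S : List ER.Con) : (inst2 S).1 = tenL (iN S + (iF S).length) (iF S) := by
  simp only [inst2]

theorem inst2_snd (S : List ER.Con) : (inst2 S).2 = (((48 * (iG S).length : ℕ) : ℤ) : ℚ) := by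
  simp only [inst2]

theorem isCube_of_eq {d : ℕ} {L : List (List QT)} {q : List (List (List ℚ))} (h : q = tenL d L) :
    IsCube q := by
  subst h
  exact isCube_tenL d L

theorem inst2_cube (S : List ER.Con) : IsCube (inst2 S).1 := isCube_of_eq (inst2_fst S)

theorem inst2_pos (S : List ER.Con) : (0 : ℚ) < (inst2 S).2 := by
  have hpos : 0 < (iG S).length := List.length_pos_iff.2 (iG_ne S)
  rw [inst2_snd]
  exact_mod_cast (by omega : 0 < 48 * (iG S).length)

theorem not_bound_of {q : List (List (List ℚ)) × ℚ} (h1 : IsCube q.1) (h2 : 0 < q.2) :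
    ¬ SpectralNormBound q ↔ SpectralNormExceed q := by
  rw [bound_iff]
  constructor
  · intro h
    by_contra hn
    exact h ⟨h1, h2, hn⟩
  · intro h hb
    exact hb.2.2 h

theorem sat_iff_not_bound (S : List ER.Con) : Sat S ↔ ¬ SpectralNormBound (inst2 S) :=
  (sat_iff_exceed S).trans (not_bound_of (inst2_cube S) (inst2_pos S)).symm

end Pool.Agent.W955.SN
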