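import Pool.Agent.W955.SN.Sys
import Pool.Agent.W955.SN.Defs

/-!
# Spectral norms and negative values of a quartic form
-/

namespace Pool.Agent.W955.SN

open Finset Pool.Agent.NPC Pool.Agent.NPC.ER Pool.Agent.H78R3.TSV

/-- The spectral norm is greater than `σ`: a version with vectors indexed by all natural
numbers. -/
def Exc (d : ℕ) (t : ℕ → ℕ → ℕ → ℝ) (σ : ℝ) : Prop :=
  ∃ x y z : ℕ → ℝ, ∑ i ∈ range d, x i ^ 2 = 1 ∧ ∑ i ∈ range d, y i ^ 2 = 1 ∧
    ∑ i ∈ range d, z i ^ 2 = 1 ∧
    σ < ∑ i ∈ range d, ∑ j ∈ range d, ∑ k ∈ range d, t i j k * x i * y j * z k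

theorem tval_bdd {d : ℕ} (t : Fin d → Fin d → Fin d → ℝ) : BddAbove
    {r | ∃ x y z : EuclideanSpace ℝ (Fin d), ‖x‖ = 1 ∧ ‖y‖ = 1 ∧ ‖z‖ = 1 ∧
      r = |tval t x y z|} := by
  refine ⟨∑ i, ∑ j, ∑ k, |t i j k|, ?_⟩
  rintro r ⟨x, y, z, hx, hy, hz, rfl⟩
  have key : ∀ (x : EuclideanSpace ℝ (Fin d)), ‖x‖ = 1 → ∀ i, |x i| ≤ 1 := by
    intro x hx i
    rw [norm_eq_one_iff] at hx
    rw [← sq_le_one_iff_abs_le_one, ← hx]
    exact Finset.single_le_sum (f := fun i => x i ^ 2) (fun _ _ => sq_nonneg _)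
      (Finset.mem_univ i)
  unfold tval
  refine (Finset.abs_sum_le_sum_abs _ _).trans (Finset.sum_le_sum fun i _ => ?_)
  refine (Finset.abs_sum_le_sum_abs _ _).trans (Finset.sum_le_sum fun j _ => ?_)
  refine (Finset.abs_sum_le_sum_abs _ _).trans (Finset.sum_le_sum fun k _ => ?_)
  rw [abs_mul, abs_mul, abs_mul]
  have h1 := key x hx i
  have h2 := key y hy j
  have h3 := key z hz k
  calc |t i j k| * |x i| * |y j| * |z k| ≤ |t i j k| * 1 * 1 * 1 := by gcongr
    _ = |t i j k| := by ring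

theorem lt_spectralNorm_iff {d : ℕ} (t : Fin d → Fin d → Fin d → ℝ) {σ : ℝ} (hσ : 0 < σ) :
    σ < spectralNorm t ↔ ∃ x y z : EuclideanSpace ℝ (Fin d), ‖x‖ = 1 ∧ ‖y‖ = 1 ∧ ‖z‖ = 1 ∧
      σ < tval t x y z := by
  constructor
  · intro h
    have hne : {r | ∃ x y z : EuclideanSpace ℝ (Fin d), ‖x‖ = 1 ∧ ‖y‖ = 1 ∧ ‖z‖ = 1 ∧
        r = |tval t x y z|}.Nonempty := by
      by_contra hne
      rw [Set.not_nonempty_iff_eq_empty] at hne
      unfold spectralNorm at h
      rw [hne, Real.sSup_empty] at h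
      linarith
    obtain ⟨r, ⟨x, y, z, hx, hy, hz, rfl⟩, hr⟩ := exists_lt_of_lt_csSup hne h
    rcases le_total 0 (tval t x y z) with h0 | h0
    · rw [abs_of_nonneg h0] at hr
      exact ⟨x, y, z, hx, hy, hz, hr⟩
    · rw [abs_of_nonpos h0] at hr
      refine ⟨x, y, -z, hx, hy, by rw [norm_neg]; exact hz, ?_⟩
      have : tval t x y (-z) = - tval t x y z := by
        unfold tval
        simp only [PiLp.neg_apply, mul_neg, Finset.sum_neg_distrib]
      rw [this]
      exact hr
  · rintro ⟨x, y, z, hx, hy, hz, h⟩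
    exact h.trans_le ((le_abs_self _).trans (le_csSup (tval_bdd t) ⟨x, y, z, hx, hy, hz, rfl⟩))

theorem lt_spectralNorm_iff_exc {d : ℕ} (t : ℕ → ℕ → ℕ → ℝ) {σ : ℝ} (hσ : 0 < σ) :
    σ < spectralNorm (fun i j k : Fin d => t i j k) ↔ Exc d t σ := by
  rw [lt_spectralNorm_iff _ hσ]
  constructor
  · rintro ⟨x, y, z, hx, hy, hz, h⟩
    rw [norm_eq_one_iff] at hx hy hz
    let X : ℕ → ℝ := fun i => if h : i < d then x ⟨i, h⟩ else 0
    let Y : ℕ → ℝ := fun i => if h : i < d then y ⟨i, h⟩ else 0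
    let Z : ℕ → ℝ := fun i => if h : i < d then z ⟨i, h⟩ else 0
    have eX : ∀ i : Fin d, X i = x i := fun i => by simp [X]
    have eY : ∀ i : Fin d, Y i = y i := fun i => by simp [Y]
    have eZ : ∀ i : Fin d, Z i = z i := fun i => by simp [Z]
    refine ⟨X, Y, Z, ?_, ?_, ?_, ?_⟩
    · rw [← Fin.sum_univ_eq_sum_range (fun i => X i ^ 2)]; simpa only [eX] using hx
    · rw [← Fin.sum_univ_eq_sum_range (fun i => Y i ^ 2)]; simpa only [eY] using hy
    · rw [← Fin.sum_univ_eq_sum_range (fun i => Z i ^ 2)]; simpa only [eZ] using hz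
    · rw [← Fin.sum_univ_eq_sum_range
        (fun i => ∑ j ∈ range d, ∑ k ∈ range d, t i j k * X i * Y j * Z k)]
      simp_rw [← Fin.sum_univ_eq_sum_range (fun j => ∑ k ∈ range d, t _ j k * X _ * Y j * Z k)]
      simp_rw [← Fin.sum_univ_eq_sum_range (fun k => t _ _ k * X _ * Y _ * Z k), eX, eY, eZ]
      exact h
  · rintro ⟨x, y, z, hx, hy, hz, h⟩
    refine ⟨WithLp.toLp 2 fun i => x i, WithLp.toLp 2 fun i => y i, WithLp.toLp 2 fun i => z i,
      ?_, ?_, ?_, ?_⟩
    · rw [norm_eq_one_iff, ← hx]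
      exact Fin.sum_univ_eq_sum_range (fun i => x i ^ 2) d
    · rw [norm_eq_one_iff, ← hy]
      exact Fin.sum_univ_eq_sum_range (fun i => y i ^ 2) d
    · rw [norm_eq_one_iff, ← hz]
      exact Fin.sum_univ_eq_sum_range (fun i => z i ^ 2) d
    · rw [← Fin.sum_univ_eq_sum_range
        (fun i => ∑ j ∈ range d, ∑ k ∈ range d, t i j k * x i * y j * z k)] at h
      simp_rw [← Fin.sum_univ_eq_sum_range (fun j => ∑ k ∈ range d, t _ j k * x _ * y j * z k)] at h
      simp_rw [← Fin.sum_univ_eq_sum_range (fun k => t _ _ k * x _ * y _ * z k)] at h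
      exact h

/-! ### The quartic form and the bilinear forms -/

/-- The size of a constraint. -/
def csize (g : QC) : ℕ := g.1.1.natAbs + g.2.1.1.natAbs + g.2.2.1.natAbs

/-- The list of the bilinear forms, for a list `G` of constraints and a bonus pair `p`. -/
def bforms (n : ℕ) (G : List QC) (p : ℕ × ℕ) : List (List QT) :=
  forms n G ++ G.map (fun _ => [((1 : ℤ), p)])

/-- The quartic form of a list of constraints and a bonus. -/
def QF4 (G : List QC) (p : ℕ × ℕ) (x : ℕ → ℝ) : ℝ :=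
  (G.map (fun g => gev x x g * gev x x g)).sum - bev x x p ^ 2

theorem S_bonus (x y x' y' : ℕ → ℝ) (G : List QC) (p : ℕ × ℕ) :
    S x y x' y' (G.map (fun _ => [((1 : ℤ), p)])) =
      (G.length : ℝ) * (bev x y p * bev x' y' p) := by
  induction G with
  | nil => simp
  | cons a l ih =>
    simp only [List.map_cons, S_cons, ih, fev_cons, fev_nil, add_zero, tev, List.length_cons]
    push_cast
    ring

theorem bev_pq (x y : ℕ → ℝ) (p : ℕ × ℕ) : bev x y p =
    bev (fun i => (x i + y i) / 2) (fun i => (x i + y i) / 2) p -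
      bev (fun i => (x i - y i) / 2) (fun i => (x i - y i) / 2) p := by
  simp only [bev]
  ring

theorem gev_pq (x y : ℕ → ℝ) (g : QC) : gev x y g =
    gev (fun i => (x i + y i) / 2) (fun i => (x i + y i) / 2) g -
      gev (fun i => (x i - y i) / 2) (fun i => (x i - y i) / 2) g := by
  unfold gev tev
  rw [bev_pq x y g.1.2, bev_pq x y g.2.1.2, bev_pq x y g.2.2.2]
  ring

theorem sq_le_sum {n : ℕ} (x : ℕ → ℝ) {i : ℕ} (hi : i < n) : x i ^ 2 ≤ ∑ i ∈ range n, x i ^ 2 :=
  Finset.single_le_sum (f := fun i => x i ^ 2) (fun _ _ => sq_nonneg _) (Finset.mem_range.2 hi)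

theorem abs_bev_le {n : ℕ} (x : ℕ → ℝ) {p : ℕ × ℕ} (h1 : p.1 < n) (h2 : p.2 < n) :
    |bev x x p| ≤ 2 * ∑ i ∈ range n, x i ^ 2 := by
  have e1 := sq_le_sum x h1
  have e2 := sq_le_sum x h2
  unfold bev
  rw [abs_le]
  constructor
  · nlinarith [sq_nonneg (x p.1 + x p.2)]
  · nlinarith [sq_nonneg (x p.1 - x p.2)]

theorem abs_tev_le {n : ℕ} (x : ℕ → ℝ) {t : QT} (h : TOk n t) :
    |tev x x t| ≤ 2 * (t.1.natAbs : ℝ) * ∑ i ∈ range n, x i ^ 2 := by
  unfold tev
  rw [abs_mul]
  have h1 := abs_bev_le x h.2.1 h.2.2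
  have h2 : |(t.1 : ℝ)| = (t.1.natAbs : ℝ) := by
    rw [Nat.cast_natAbs]
    push_cast
    rfl
  rw [h2]
  calc (t.1.natAbs : ℝ) * |bev x x t.2| ≤ (t.1.natAbs : ℝ) * (2 * ∑ i ∈ range n, x i ^ 2) := by
        gcongr
    _ = _ := by ring

theorem abs_gev_le {n : ℕ} (x : ℕ → ℝ) {g : QC} (h : GOk n g) (hs : csize g ≤ 16) :
    |gev x x g| ≤ 32 * ∑ i ∈ range n, x i ^ 2 := by
  have h1 := abs_tev_le x h.1
  have h2 := abs_tev_le x h.2.1
  have h3 := abs_tev_le x h.2.2
  have h4 : (g.1.1.natAbs : ℝ) + (g.2.1.1.natAbs : ℝ) + (g.2.2.1.natAbs : ℝ) ≤ 16 := by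
    exact_mod_cast hs
  have h5 : 0 ≤ ∑ i ∈ range n, x i ^ 2 := Finset.sum_nonneg fun _ _ => sq_nonneg _
  unfold gev
  calc |tev x x g.1 + tev x x g.2.1 + tev x x g.2.2| ≤
        |tev x x g.1| + |tev x x g.2.1| + |tev x x g.2.2| := abs_add_three _ _ _
    _ ≤ 2 * ((g.1.1.natAbs : ℝ) + (g.2.1.1.natAbs : ℝ) + (g.2.2.1.natAbs : ℝ)) *
        ∑ i ∈ range n, x i ^ 2 := by linarith
    _ ≤ 2 * 16 * ∑ i ∈ range n, x i ^ 2 := by gcongr
    _ = _ := by ring

/-- **The upper bound.** If the quartic form is nonnegative, the sum of squares is at most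
`(48 m)²`. -/
theorem S_le {n : ℕ} {G : List QC} {p : ℕ × ℕ} (hG : ∀ g ∈ G, GOk n g)
    (hs : ∀ g ∈ G, csize g ≤ 16) (hp1 : p.1 < n) (hp2 : p.2 < n) (hQ : ∀ x, 0 ≤ QF4 G p x)
    (x y : ℕ → ℝ) (hx : ∑ i ∈ range n, x i ^ 2 ≤ 1) (hy : ∑ i ∈ range n, y i ^ 2 ≤ 1) :
    S x y x y (bforms n G p) ≤ (48 * (G.length : ℝ)) ^ 2 := by
  rw [bforms, S_append, S_forms x y x y n G hG, S_bonus, sum_bev]
  set m : ℝ := (G.length : ℝ) with hm
  have hm0 : 0 ≤ m := Nat.cast_nonneg _
  set P : ℕ → ℝ := fun i => (x i + y i) / 2 with hP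
  set R : ℕ → ℝ := fun i => (x i - y i) / 2 with hR
  set A := ∑ i ∈ range n, P i ^ 2 with hA
  set B := ∑ i ∈ range n, R i ^ 2 with hB
  set D := ∑ i ∈ range n, P i * R i with hD
  have hA0 : 0 ≤ A := Finset.sum_nonneg fun _ _ => sq_nonneg _
  have hB0 : 0 ≤ B := Finset.sum_nonneg fun _ _ => sq_nonneg _
  have exx : ∑ i ∈ range n, x i ^ 2 = A + B + 2 * D := by
    rw [hA, hB, hD, Finset.mul_sum, ← Finset.sum_add_distrib, ← Finset.sum_add_distrib]
    exact Finset.sum_congr rfl fun i _ => by simp only [hP, hR]; ring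
  have eyy : ∑ i ∈ range n, y i ^ 2 = A + B - 2 * D := by
    rw [hA, hB, hD, Finset.mul_sum, ← Finset.sum_add_distrib, ← Finset.sum_sub_distrib]
    exact Finset.sum_congr rfl fun i _ => by simp only [hP, hR]; ring
  have exy : ∑ i ∈ range n, x i * y i = A - B := by
    rw [hA, hB, ← Finset.sum_sub_distrib]
    exact Finset.sum_congr rfl fun i _ => by simp only [hP, hR]; ring
  have exx' : ∑ i ∈ range n, x i * x i = A + B + 2 * D := by
    rw [← exx]; exact Finset.sum_congr rfl fun i _ => by ring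
  have eyy' : ∑ i ∈ range n, y i * y i = A + B - 2 * D := by
    rw [← eyy]; exact Finset.sum_congr rfl fun i _ => by ring
  have eyx : ∑ i ∈ range n, y i * x i = A - B := by
    rw [← exy]; exact Finset.sum_congr rfl fun i _ => by ring
  rw [exx', eyy', exy, eyx]
  have hAB : A + B ≤ 1 := by linarith
  -- the sums over the constraints
  set gP := (G.map (fun g => gev P P g * gev P P g)).sum with hgP
  set gR := (G.map (fun g => gev R R g * gev R R g)).sum with hgR
  set gX := (G.map (fun g => gev P P g * gev R R g)).sum with hgX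
  have hsum : (G.map (fun g => gev x y g * gev x y g)).sum = gP + gR - 2 * gX := by
    have key : ∀ l : List QC, (l.map (fun g => gev x y g * gev x y g)).sum =
        (l.map (fun g => gev P P g * gev P P g)).sum + (l.map (fun g => gev R R g * gev R R g)).sum
          - 2 * (l.map (fun g => gev P P g * gev R R g)).sum := by
      intro l
      induction l with
      | nil => simp
      | cons a l ih =>
        simp only [List.map_cons, List.sum_cons, ih]
        rw [gev_pq x y a]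
        ring
    exact key G
  have hgX' : gX ≤ m * (1024 * (A * B)) := by
    have key : ∀ l : List QC, (∀ g ∈ l, GOk n g) → (∀ g ∈ l, csize g ≤ 16) →
        (l.map (fun g => gev P P g * gev R R g)).sum ≤ (l.length : ℝ) * (1024 * (A * B)) := by
      intro l
      induction l with
      | nil => simp
      | cons a l ih =>
        intro h1 h2
        have h3 := ih (fun g hg => h1 g (List.mem_cons_of_mem _ hg))
          (fun g hg => h2 g (List.mem_cons_of_mem _ hg))
        have h4 := abs_gev_le P (h1 a List.mem_cons_self) (h2 a List.mem_cons_self)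
        have h5 := abs_gev_le R (h1 a List.mem_cons_self) (h2 a List.mem_cons_self)
        rw [← hA] at h4
        rw [← hB] at h5
        have h6 : gev P P a * gev R R a ≤ 1024 * (A * B) := by
          calc gev P P a * gev R R a ≤ |gev P P a * gev R R a| := le_abs_self _
            _ = |gev P P a| * |gev R R a| := abs_mul _ _
            _ ≤ (32 * A) * (32 * B) := mul_le_mul h4 h5 (abs_nonneg _) (by positivity)
            _ = _ := by ring
        simp only [List.map_cons, List.sum_cons, List.length_cons]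
        push_cast
        linarith
    exact key G hG hs
  rw [hsum, bev_pq x y p]
  have hbP := abs_bev_le P hp1 hp2
  have hbR := abs_bev_le R hp1 hp2
  rw [← hA] at hbP
  rw [← hB] at hbR
  set bP := bev P P p with hbPdef
  set bR := bev R R p with hbRdef
  have hQP : 0 ≤ gP - bP ^ 2 := hQ P
  have hQR : 0 ≤ gR - bR ^ 2 := hQ R
  have hbb : -(bP * bR) ≤ 4 * (A * B) := by
    calc -(bP * bR) ≤ |bP * bR| := neg_le_abs _
      _ = |bP| * |bR| := abs_mul _ _
      _ ≤ (2 * A) * (2 * B) := mul_le_mul hbP hbR (abs_nonneg _) (by positivity)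
      _ = _ := by ring
  have hABn : 0 ≤ A * B := mul_nonneg hA0 hB0
  have h1 : 2 * m * (gX - bP * bR) ≤ 2 * m * (m * (1024 * (A * B)) + 4 * (A * B)) :=
    mul_le_mul_of_nonneg_left (by linarith) (by linarith)
  have h2 : 0 ≤ m * (gP - bP ^ 2) := mul_nonneg hm0 hQP
  have h3 : 0 ≤ m * (gR - bR ^ 2) := mul_nonneg hm0 hQR
  have h4 : 576 * m ^ 2 * (2 * ((A + B + 2 * D) * (A + B - 2 * D)) + 2 * ((A - B) * (A - B))) ≤
      2304 * m ^ 2 * (1 - 2 * (A * B)) := by
    have h5 : 0 ≤ m ^ 2 := sq_nonneg _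
    have h6 : (2 * ((A + B + 2 * D) * (A + B - 2 * D)) + 2 * ((A - B) * (A - B))) ≤
        4 * (1 - 2 * (A * B)) := by nlinarith [sq_nonneg D]
    nlinarith [mul_le_mul_of_nonneg_left h6 h5]
  have h7 : m * (A * B) ≤ m * m * (A * B) ∨ m = 0 := by
    rcases Nat.eq_zero_or_pos G.length with h | h
    · right; rw [hm, h]; simp
    · left
      have : (1 : ℝ) ≤ m := by rw [hm]; exact_mod_cast h
      have h8 : m * (A * B) * 1 ≤ m * (A * B) * m :=
        mul_le_mul_of_nonneg_left this (mul_nonneg hm0 hABn)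
      linarith
  rcases h7 with h7 | h7
  · have h8 : 0 ≤ m * m * (A * B) := mul_nonneg (mul_nonneg hm0 hm0) hABn
    linarith
  · rw [h7]
    norm_num

/-- **The lower bound.** -/
theorem S_gt {n : ℕ} {G : List QC} {p : ℕ × ℕ} (hG : ∀ g ∈ G, GOk n g) (hne : G ≠ [])
    (x : ℕ → ℝ) (hQ : QF4 G p x < 0) (hx : ∑ i ∈ range n, x i ^ 2 = 1) :
    (48 * (G.length : ℝ)) ^ 2 < S x x x x (bforms n G p) := by
  rw [bforms, S_append, S_forms x x x x n G hG, S_bonus, sum_bev]
  have h1 : ∑ i ∈ range n, x i * x i = 1 := by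
    rw [← hx]; exact Finset.sum_congr rfl fun i _ => by ring
  have hm : (0 : ℝ) < G.length := by
    have : 0 < G.length := List.length_pos_iff.2 hne
    exact_mod_cast this
  rw [h1]
  unfold QF4 at hQ
  nlinarith

/-- The indices of the terms of the forms are small. -/
theorem fok_bforms {n : ℕ} {G : List QC} {p : ℕ × ℕ} (hG : ∀ g ∈ G, GOk n g)
    (hp1 : p.1 < n) (hp2 : p.2 < n) : ∀ f ∈ bforms n G p, FOk n f := by
  intro f hf
  unfold bforms at hf
  rcases List.mem_append.1 hf with h | h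
  · exact fok_forms hG f h
  · obtain ⟨_, _, rfl⟩ := List.mem_map.1 h
    intro t ht
    simp only [List.mem_cons, List.not_mem_nil, or_false] at ht
    subst ht
    exact ⟨hp1, hp2⟩

/-- The value of the tensor of a list of forms. -/
theorem tval_ten {d n : ℕ} (L : List (List QT)) (hL : ∀ f ∈ L, FOk n f) (hnd : n ≤ d)
    (x y z : ℕ → ℝ) :
    ∑ i ∈ range d, ∑ j ∈ range d, ∑ k ∈ range d, (ten L i j k : ℝ) * x i * y j * z k =
      ∑ k ∈ range d, fev x y (L.getD k []) * z k := by
  have hFd : ∀ k, FOk d (L.getD k []) := fun k t ht =>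
    ⟨(fok_getD hL k t ht).1.trans_le hnd, (fok_getD hL k t ht).2.trans_le hnd⟩
  have h1 : ∀ k, fev x y (L.getD k []) * z k =
      ∑ i ∈ range d, ∑ j ∈ range d, (ten L i j k : ℝ) * x i * y j * z k := by
    intro k
    rw [← sum_cf d _ (hFd k), Finset.sum_mul]
    apply Finset.sum_congr rfl
    intro i _
    rw [Finset.sum_mul]
    rfl
  simp_rw [h1]
  rw [Finset.sum_comm (s := range d) (t := range d)
    (f := fun k i => ∑ j ∈ range d, (ten L i j k : ℝ) * x i * y j * z k)]
  apply Finset.sum_congr rfl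
  intro i _
  rw [Finset.sum_comm]

/-- **The equivalence for the spectral norm.** -/
theorem exc_iff {n d : ℕ} {G : List QC} {p : ℕ × ℕ} (hG : ∀ g ∈ G, GOk n g)
    (hs : ∀ g ∈ G, csize g ≤ 16) (hp1 : p.1 < n) (hp2 : p.2 < n) (hne : G ≠ []) (hnd : n ≤ d)
    (hd : (bforms n G p).length ≤ d) :
    Exc d (fun i j k => (ten (bforms n G p) i j k : ℝ)) (48 * (G.length : ℝ)) ↔
      ∃ x, QF4 G p x < 0 ∧ 0 < ∑ i ∈ range n, x i ^ 2 := by
  have hm : (0 : ℝ) < G.length := by
    have : 0 < G.length := List.length_pos_iff.2 hne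
    exact_mod_cast this
  have hF := fok_bforms hG hp1 hp2
  have hsub : range n ⊆ range d := Finset.range_subset_range.2 hnd
  constructor
  · rintro ⟨x, y, z, hx, hy, hz, h⟩
    rw [tval_ten _ hF hnd] at h
    by_contra hno
    push Not at hno
    have hQ : ∀ x, 0 ≤ QF4 G p x := by
      intro x
      by_contra hx
      push Not at hx
      have h0 := hno x hx
      have hz : ∀ i < n, x i = 0 := by
        intro i hi
        have := sq_le_sum x hi
        have h1 : x i ^ 2 = 0 := le_antisymm (by linarith) (sq_nonneg _)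
        exact pow_eq_zero_iff (two_ne_zero) |>.1 h1
      have h1 : bev x x p = 0 := by
        unfold bev
        rw [hz _ hp1, hz _ hp2]
        ring
      have h2 : 0 ≤ (G.map (fun g => gev x x g * gev x x g)).sum := List.sum_nonneg (by
        intro r hr
        obtain ⟨c, _, rfl⟩ := List.mem_map.1 hr
        exact mul_self_nonneg _)
      unfold QF4 at hx
      rw [h1] at hx
      linarith
    have hx1 : ∑ i ∈ range n, x i ^ 2 ≤ 1 := by
      rw [← hx]
      exact Finset.sum_le_sum_of_subset_of_nonneg hsub (fun _ _ _ => sq_nonneg _)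
    have hy1 : ∑ i ∈ range n, y i ^ 2 ≤ 1 := by
      rw [← hy]
      exact Finset.sum_le_sum_of_subset_of_nonneg hsub (fun _ _ _ => sq_nonneg _)
    have h1 := S_le hG hs hp1 hp2 hQ x y hx1 hy1
    have h2 := Finset.sum_mul_sq_le_sq_mul_sq (range d)
      (fun k => fev x y ((bforms n G p).getD k [])) z
    rw [hz, mul_one] at h2
    have h3 : ∑ k ∈ range d, fev x y ((bforms n G p).getD k []) ^ 2 =
        S x y x y (bforms n G p) := by
      unfold S
      rw [← sum_getD (bforms n G p) hd (fun f => fev x y f * fev x y f) (by simp)]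
      exact Finset.sum_congr rfl fun k _ => sq _
    rw [h3] at h2
    have h4 : (48 * (G.length : ℝ)) ^ 2 <
        (∑ k ∈ range d, fev x y ((bforms n G p).getD k []) * z k) ^ 2 :=
      pow_lt_pow_left₀ h (by positivity) (by norm_num)
    linarith
  · rintro ⟨x₀, hQ, hx₀⟩
    -- truncate and normalize
    set s := ∑ i ∈ range n, x₀ i ^ 2 with hsdef
    have hr : Real.sqrt s ^ 2 = s := Real.sq_sqrt hx₀.le
    have hr0 : 0 < Real.sqrt s := Real.sqrt_pos.2 hx₀
    let x : ℕ → ℝ := fun i => if i < n then x₀ i / Real.sqrt s else 0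
    have hxn : ∀ i < n, x i = x₀ i / Real.sqrt s := fun i hi => by simp [x, hi]
    have hxo : ∀ i, n ≤ i → x i = 0 := fun i hi => by simp [x, not_lt.2 hi]
    have hx : ∑ i ∈ range n, x i ^ 2 = 1 := by
      have : ∀ i ∈ range n, x i ^ 2 = x₀ i ^ 2 / s := by
        intro i hi
        rw [hxn i (Finset.mem_range.1 hi), div_pow, hr]
      rw [Finset.sum_congr rfl this, ← Finset.sum_div, ← hsdef, div_self hx₀.ne']
    have hbev : ∀ q : ℕ × ℕ, q.1 < n → q.2 < n → bev x x q = bev x₀ x₀ q / s := by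
      intro q h1 h2
      unfold bev
      rw [hxn _ h1, hxn _ h2]
      have : Real.sqrt s * Real.sqrt s = s := by rw [← sq, hr]
      rw [div_mul_div_comm, div_mul_div_comm, this, ← add_div]
    have hgev : ∀ g ∈ G, gev x x g = gev x₀ x₀ g / s := by
      intro g hg
      obtain ⟨⟨a1, a2, a3⟩, ⟨b1, b2, b3⟩, ⟨c1, c2, c3⟩⟩ := hG g hg
      unfold gev tev
      rw [hbev _ a2 a3, hbev _ b2 b3, hbev _ c2 c3]
      ring
    have hQx : QF4 G p x < 0 := by
      have h1 : QF4 G p x = QF4 G p x₀ / s ^ 2 := by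
        unfold QF4
        rw [hbev p hp1 hp2, sub_div, div_pow]
        congr 1
        rw [div_eq_mul_inv, ← List.sum_map_mul_right]
        congr 1
        apply List.map_congr_left
        intro g hg
        rw [hgev g hg, div_mul_div_comm, ← sq s, div_eq_mul_inv]
      rw [h1]
      exact div_neg_of_neg_of_pos hQ (by positivity)
    have hxd : ∑ i ∈ range d, x i ^ 2 = 1 := by
      rw [← hx]
      symm
      apply Finset.sum_subset hsub
      intro i _ hi
      rw [hxo i (not_lt.1 (fun h => hi (Finset.mem_range.2 h)))]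
      ring
    have hS := S_gt hG hne x hQx hx
    set Q := S x x x x (bforms n G p) with hQdef
    have hQpos : 0 < Q := lt_of_le_of_lt (sq_nonneg _) hS
    have hsQ : Real.sqrt Q ^ 2 = Q := Real.sq_sqrt hQpos.le
    have hsQ0 : 0 < Real.sqrt Q := Real.sqrt_pos.2 hQpos
    have h3 : ∑ k ∈ range d, fev x x ((bforms n G p).getD k []) ^ 2 = Q := by
      rw [hQdef]
      unfold S
      rw [← sum_getD (bforms n G p) hd (fun f => fev x x f * fev x x f) (by simp)]
      exact Finset.sum_congr rfl fun k _ => sq _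
    refine ⟨x, x, fun k => fev x x ((bforms n G p).getD k []) / Real.sqrt Q, hxd, hxd, ?_, ?_⟩
    · simp_rw [div_pow]
      rw [← Finset.sum_div, h3, hsQ, div_self hQpos.ne']
    · rw [tval_ten _ hF hnd]
      have h4 : ∑ k ∈ range d, fev x x ((bforms n G p).getD k []) *
          (fev x x ((bforms n G p).getD k []) / Real.sqrt Q) = Real.sqrt Q := by
        have : ∀ k, fev x x ((bforms n G p).getD k []) *
          (fev x x ((bforms n G p).getD k []) / Real.sqrt Q) =
          fev x x ((bforms n G p).getD k []) ^ 2 / Real.sqrt Q := fun k => by ring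
        simp_rw [this]
        rw [← Finset.sum_div, h3, div_eq_iff hsQ0.ne', ← sq, hsQ]
      rw [h4]
      exact Real.lt_sqrt_of_sq_lt hS

end Pool.Agent.W955.SN
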