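import Pool.Agent.W955.SN.Chain
import Pool.Agent.H78R3.TSV.Red
import Pool.Agent.ER.GapSys

/-!
# Negative values of an explicit quartic form

A system of constraints is satisfiable if and only if an explicit quartic form takes a negative
value: the form is the sum of the squares of homogeneous versions of the constraints, plus a chain
of repeated squarings whose last element gives a tiny bonus.
-/

namespace Pool.Agent.W955.SN

open Finset Pool.Agent.NPC Pool.Agent.NPC.ER Pool.Agent.H78R3.TSV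

/-- The bound `4 x² + 4 s² = x₀²`. -/
def slack4 (N r : ℕ) : QC := ((4, r + 1, r + 1), (4, N + 1 + r, N + 1 + r), (-1, 0, 0))

/-- The first element of the chain is `1/8`. -/
def cstart (M : ℕ) : QC := ((8, M, 0), (-1, 0, 0), (0, 0, 0))

/-- The elements of the chain are repeatedly squared. -/
def cstep (M i : ℕ) : QC := ((8, M + i + 1, 0), (-8, M + i, M + i), (0, 0, 0))

/-- The square of the last element of the chain. -/
def cend (M L : ℕ) : QC := ((1, M + L, M + L), (0, 0, 0), (0, 0, 0))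

/-- The forms of the penalty. -/
def psys (T : List ER.Con) (L : ℕ) : List QC :=
  T.map (hcon (svars T)) ++ ((List.range (svars T).length).map (slack4 (svars T).length) ++
    (cstart (2 * (svars T).length + 1) ::
      ((List.range L).map (cstep (2 * (svars T).length + 1)) ++
        [cend (2 * (svars T).length + 1) L])))

/-- The number of variables. -/
def pn (T : List ER.Con) (L : ℕ) : ℕ := 2 * (svars T).length + 2 + L

/-- The index of the last variable. -/
def pl (T : List ER.Con) (L : ℕ) : ℕ := 2 * (svars T).length + 1 + L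

/-- The quartic form. -/
def QH (T : List ER.Con) (L : ℕ) (x : ℕ → ℝ) : ℝ :=
  ((psys T L).map (fun g => gev x x g * gev x x g)).sum - bev x x (0, pl T L) ^ 2

/-- The value of the quartic form. -/
theorem QH_eq (T : List ER.Con) (L : ℕ) (x : ℕ → ℝ) : QH T L x =
    (T.map (fun c => gev x x (hcon (svars T) c) ^ 2)).sum +
    ∑ r ∈ range (svars T).length, (8 * x (r + 1) ^ 2 + 8 * x ((svars T).length + 1 + r) ^ 2 -
      2 * x 0 ^ 2) ^ 2 +
    ((16 * x (2 * (svars T).length + 1) * x 0 - 2 * x 0 ^ 2) ^ 2 +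
    ∑ i ∈ range L, (16 * x (2 * (svars T).length + 1 + i + 1) * x 0 -
      16 * x (2 * (svars T).length + 1 + i) ^ 2) ^ 2 +
    (2 * x (pl T L) ^ 2) ^ 2) - (2 * x 0 * x (pl T L)) ^ 2 := by
  have hs : ∀ (n : ℕ) (f : ℕ → QC), ((List.range n).map f |>.map
      (fun g => gev x x g * gev x x g)).sum = ∑ i ∈ range n, gev x x (f i) ^ 2 := by
    intro n f
    induction n with
    | zero => simp
    | succ n ih =>
      rw [List.range_succ, Finset.sum_range_succ, ← ih]
      simp [sq]
  unfold QH psys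
  simp only [List.map_append, List.map_cons, List.sum_append, List.sum_cons, List.map_nil,
    List.sum_nil, hs]
  have h1 : (List.map (fun g => gev x x g * gev x x g) (List.map (hcon (svars T)) T)).sum =
      (T.map (fun c => gev x x (hcon (svars T) c) ^ 2)).sum := by
    rw [List.map_map]
    congr 1
    apply List.map_congr_left
    intro c _
    simp [sq]
  rw [h1]
  have h2 : ∀ r, gev x x (slack4 (svars T).length r) =
      8 * x (r + 1) ^ 2 + 8 * x ((svars T).length + 1 + r) ^ 2 - 2 * x 0 ^ 2 := by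
    intro r
    simp only [gev, tev, bev, slack4]
    push_cast
    ring
  have h3 : gev x x (cstart (2 * (svars T).length + 1)) =
      16 * x (2 * (svars T).length + 1) * x 0 - 2 * x 0 ^ 2 := by
    simp only [gev, tev, bev, cstart]
    push_cast
    ring
  have h4 : ∀ i, gev x x (cstep (2 * (svars T).length + 1) i) =
      16 * x (2 * (svars T).length + 1 + i + 1) * x 0 -
        16 * x (2 * (svars T).length + 1 + i) ^ 2 := by
    intro i
    simp only [gev, tev, bev, cstep]
    push_cast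
    ring
  have h5 : gev x x (cend (2 * (svars T).length + 1) L) = 2 * x (pl T L) ^ 2 := by
    simp only [gev, tev, bev, cend, pl]
    push_cast
    ring
  simp only [h2, h3, h4, h5, bev]
  ring

/-- The value of a homogeneous constraint. -/
theorem gev_hcon (T : List ER.Con) (x : ℕ → ℝ) (h0 : x 0 = 1) (c : ER.Con) :
    gev x x (hcon (svars T) c) = 2 * c.err (fun i => x (ix (svars T) i)) := by
  cases c <;>
  · simp only [gev, tev, bev, hcon, Con.err, h0]
    push_cast
    ring

/-- A sum of squares is at least each of its terms. -/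
theorem le_list_sum {α : Type} (l : List α) (f : α → ℝ) (hf : ∀ a, 0 ≤ f a) {a : α} (ha : a ∈ l) :
    f a ≤ (l.map f).sum := by
  induction l with
  | nil => simp at ha
  | cons b l ih =>
    rw [List.map_cons, List.sum_cons]
    have h1 : 0 ≤ (l.map f).sum := List.sum_nonneg (by
      intro r hr
      obtain ⟨c, _, rfl⟩ := List.mem_map.1 hr
      exact hf c)
    rcases List.mem_cons.1 ha with rfl | h
    · linarith
    · linarith [ih h, hf b]

/-- The length of the chain. -/
def cl (T : List ER.Con) : ℕ := gapK T.length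

theorem QH_smul (T : List ER.Con) (L : ℕ) (x : ℕ → ℝ) (s : ℝ) :
    QH T L (fun i => s * x i) = s ^ 4 * QH T L x := by
  have h1 : ∀ p, bev (fun i => s * x i) (fun i => s * x i) p = s ^ 2 * bev x x p := by
    intro p
    simp only [bev]
    ring
  have h2 : ∀ g, gev (fun i => s * x i) (fun i => s * x i) g = s ^ 2 * gev x x g := by
    intro g
    simp only [gev, tev, h1]
    ring
  unfold QH
  simp only [h1, h2]
  rw [mul_sub]
  congr 1
  · rw [← List.sum_map_mul_left]
    congr 1
    apply List.map_congr_left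
    intro g _
    ring
  · ring

/-- The form is nonnegative at infinity. -/
theorem QH_zero (T : List ER.Con) (L : ℕ) (x : ℕ → ℝ) (h0 : x 0 = 0) : 0 ≤ QH T L x := by
  unfold QH
  have h1 : bev x x (0, pl T L) = 0 := by simp [bev, h0]
  rw [h1]
  have h2 : 0 ≤ ((psys T L).map (fun g => gev x x g * gev x x g)).sum := List.sum_nonneg (by
      intro r hr
      obtain ⟨c, _, rfl⟩ := List.mem_map.1 hr
      exact mul_self_nonneg _)
  linarith

/-- The chain part of the form. -/
theorem chain_part (M L : ℕ) (x : ℕ → ℝ) : -(4 * (1 / 2 : ℝ) ^ 2 ^ (L + 1)) ≤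
    (16 * x M * 1 - 2 * 1 ^ 2) ^ 2 +
    ∑ i ∈ range L, (16 * x (M + i + 1) * 1 - 16 * x (M + i) ^ 2) ^ 2 +
    (2 * x (M + L) ^ 2) ^ 2 - (2 * 1 * x (M + L)) ^ 2 := by
  have h := chain_lower L (fun i => x (M + i))
  simp only [add_zero] at h
  have h1 : ∑ i ∈ range L, (16 * x (M + i + 1) * 1 - 16 * x (M + i) ^ 2) ^ 2 =
      256 * ∑ i ∈ range L, (x (M + (i + 1)) - x (M + i) ^ 2) ^ 2 := by
    rw [Finset.mul_sum]
    apply Finset.sum_congr rfl
    intro i _
    rw [show M + (i + 1) = M + i + 1 by ring]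
    ring
  rw [h1]
  have h2 : 0 ≤ ∑ i ∈ range L, (x (M + (i + 1)) - x (M + i) ^ 2) ^ 2 :=
    Finset.sum_nonneg fun _ _ => sq_nonneg _
  have h3 : 0 ≤ (x M - 1 / 8) ^ 2 := sq_nonneg _
  nlinarith

/-- **Soundness.** If the form takes a negative value then the system is satisfiable. -/
theorem sat_of_QH_neg {T : List ER.Con} {x : ℕ → ℝ} (hx : QH T (cl T) x < 0) :
    ∃ w', ∀ c ∈ T, c.HoldsC (1 / 8) w' := by
  have h0 : x 0 ≠ 0 := fun h => absurd (QH_zero T (cl T) x h) (not_le.2 hx)
  -- normalize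
  obtain ⟨y, hy0, hy⟩ : ∃ y : ℕ → ℝ, y 0 = 1 ∧ QH T (cl T) y < 0 := by
    refine ⟨fun i => (x 0)⁻¹ * x i, inv_mul_cancel₀ h0, ?_⟩
    rw [QH_smul]
    have : 0 < (x 0)⁻¹ ^ 4 := by positivity
    nlinarith
  clear hx h0 x
  rw [QH_eq, hy0] at hy
  have hch := chain_part (2 * (svars T).length + 1) (cl T) y
  set N := (svars T).length with hN
  set L := cl T with hL
  have hpl : pl T L = 2 * N + 1 + L := rfl
  rw [hpl] at hy
  set A := (T.map (fun c => gev y y (hcon (svars T) c) ^ 2)).sum with hA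
  set B := ∑ r ∈ range N, (8 * y (r + 1) ^ 2 + 8 * y (N + 1 + r) ^ 2 - 2 * 1 ^ 2) ^ 2 with hB
  have hA0 : 0 ≤ A := List.sum_nonneg (by
      intro r hr
      obtain ⟨c, _, rfl⟩ := List.mem_map.1 hr
      exact sq_nonneg _)
  have hB0 : 0 ≤ B := Finset.sum_nonneg fun _ _ => sq_nonneg _
  have hAB : A + B < 4 * (1 / 2 : ℝ) ^ 2 ^ (L + 1) := by linarith
  have hε : (1 / 2 : ℝ) ^ 2 ^ (L + 1) ≤ 1 / 4 := by
    calc (1 / 2 : ℝ) ^ 2 ^ (L + 1) ≤ (1 / 2) ^ 2 :=
          pow_le_pow_of_le_one (by norm_num) (by norm_num) (two_le_two_pow L)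
      _ = 1 / 4 := by norm_num
  apply holds_of_approx (w := fun i => y (ix (svars T) i))
  · intro i hi
    have h1 := List.idxOf_lt_length_of_mem hi
    have h2 : (8 * y ((svars T).idxOf i + 1) ^ 2 +
        8 * y (N + 1 + (svars T).idxOf i) ^ 2 - 2 * 1 ^ 2) ^ 2 ≤ B :=
      Finset.single_le_sum (f := fun r => (8 * y (r + 1) ^ 2 + 8 * y (N + 1 + r) ^ 2 -
        2 * 1 ^ 2) ^ 2) (fun _ _ => sq_nonneg _) (Finset.mem_range.2 h1)
    have h3 : y (ix (svars T) i) = y ((svars T).idxOf i + 1) := rfl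
    simp only [h3]
    rw [← sq_le_one_iff_abs_le_one]
    set a := y ((svars T).idxOf i + 1)
    set b := y (N + 1 + (svars T).idxOf i)
    nlinarith [sq_nonneg b, sq_nonneg a, sq_nonneg (8 * a ^ 2 + 8 * b ^ 2 - 2 * 1 ^ 2)]
  · intro c hc
    have h1 : gev y y (hcon (svars T) c) ^ 2 ≤ A :=
      le_list_sum T (fun c => gev y y (hcon (svars T) c) ^ 2) (fun _ => sq_nonneg _) hc
    rw [gev_hcon T y hy0] at h1
    have h2 : (c.err fun i => y (ix (svars T) i)) ^ 2 < ((1 / 2 : ℝ) ^ 2 ^ L) ^ 2 := by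
      rw [← pow_mul, ← pow_succ]
      nlinarith
    have h3 : |c.err fun i => y (ix (svars T) i)| < (1 / 2 : ℝ) ^ 2 ^ L :=
      abs_lt_of_sq_lt_sq h2 (by positivity)
    have h4 : (1 / 2 : ℝ) ^ 2 ^ L * 2 ^ 2 ^ L = 1 := by
      rw [← mul_pow]
      norm_num
    have h5 : (0 : ℝ) < 2 ^ 2 ^ L := by positivity
    rw [show gapK T.length = L from rfl]
    calc |c.err fun i => y (ix (svars T) i)| * 2 ^ 2 ^ L ≤ (1 / 2 : ℝ) ^ 2 ^ L * 2 ^ 2 ^ L :=
          mul_le_mul_of_nonneg_right h3.le h5.le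
      _ = 1 := h4

/-- **Completeness.** A satisfiable system gives a negative value. -/
theorem QH_neg_of_sat {T : List ER.Con} (L : ℕ) {w : ℕ → ℝ} (hw : ∀ i, |w i| ≤ 1 / 8)
    (hc : ∀ c ∈ T, c.HoldsC (1 / 8) w) : ∃ x : ℕ → ℝ, x 0 = 1 ∧ QH T L x < 0 := by
  set V := svars T with hV
  set N := V.length with hN
  let x : ℕ → ℝ := fun i => if i = 0 then 1 else if i < N + 1 then w (V.getD (i - 1) 0) else
    if i < 2 * N + 1 then Real.sqrt (1 / 4 - w (V.getD (i - (N + 1)) 0) ^ 2) else
    (1 / 8) ^ 2 ^ (i - (2 * N + 1))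
  have x0 : x 0 = 1 := by simp [x]
  have x1 : ∀ r < N, x (r + 1) = w (V.getD r 0) := by
    intro r hr
    simp only [x]
    rw [if_neg (by omega), if_pos (by omega)]
    simp
  have x2 : ∀ r < N, x (N + 1 + r) = Real.sqrt (1 / 4 - w (V.getD r 0) ^ 2) := by
    intro r hr
    simp only [x]
    rw [if_neg (by omega), if_neg (by omega), if_pos (by omega)]
    congr 5
    omega
  have x3 : ∀ i, x (2 * N + 1 + i) = (1 / 8) ^ 2 ^ i := by
    intro i
    simp only [x]
    rw [if_neg (by omega), if_neg (by omega), if_neg (by omega)]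
    congr 2
    omega
  have xi : ∀ i ∈ V, x (ix V i) = w i := by
    intro i hi
    have h1 := List.idxOf_lt_length_of_mem hi
    unfold ix
    rw [x1 _ h1, List.getD_eq_getElem _ _ h1, List.getElem_idxOf h1]
  refine ⟨x, x0, ?_⟩
  rw [QH_eq, ← hV, ← hN, x0]
  have hA : (T.map (fun c => gev x x (hcon V c) ^ 2)).sum = 0 := by
    apply List.sum_eq_zero
    intro r hr
    obtain ⟨c, hcT, rfl⟩ := List.mem_map.1 hr
    have h1 : gev x x (hcon V c) = 2 * c.err (fun i => x (ix V i)) := gev_hcon T x x0 c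
    have h2 : c.err (fun i => x (ix V i)) = 0 := by
      rw [Con.err_eq_zero]
      have hh := hc c hcT
      cases c with
      | one i =>
        have e1 := xi i (mem_svars hcT (by simp [Con.vars]))
        simp only [Con.HoldsC] at hh ⊢
        rw [e1, hh]
      | add i j k =>
        have e1 := xi i (mem_svars hcT (by simp [Con.vars]))
        have e2 := xi j (mem_svars hcT (by simp [Con.vars]))
        have e3 := xi k (mem_svars hcT (by simp [Con.vars]))
        simp only [Con.HoldsC] at hh ⊢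
        rw [e1, e2, e3, hh]
      | mul i j k =>
        have e1 := xi i (mem_svars hcT (by simp [Con.vars]))
        have e2 := xi j (mem_svars hcT (by simp [Con.vars]))
        have e3 := xi k (mem_svars hcT (by simp [Con.vars]))
        simp only [Con.HoldsC] at hh ⊢
        rw [e1, e2, e3, hh]
    rw [h1, h2]
    norm_num
  have hB : ∑ r ∈ range N, (8 * x (r + 1) ^ 2 + 8 * x (N + 1 + r) ^ 2 - 2 * 1 ^ 2) ^ 2 = 0 := by
    apply Finset.sum_eq_zero
    intro r hr
    have hr := Finset.mem_range.1 hr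
    rw [x1 r hr, x2 r hr]
    have h1 : 0 ≤ 1 / 4 - w (V.getD r 0) ^ 2 := by
      have := hw (V.getD r 0)
      have h2 : w (V.getD r 0) ^ 2 ≤ (1 / 8) ^ 2 := by
        rw [← sq_abs]
        exact pow_le_pow_left₀ (abs_nonneg _) this 2
      have h3 : ((1 : ℝ) / 8) ^ 2 ≤ 1 / 4 := by norm_num
      linarith
    rw [Real.sq_sqrt h1]
    ring
  have hC : ∑ i ∈ range L, (16 * x (2 * N + 1 + i + 1) * 1 - 16 * x (2 * N + 1 + i) ^ 2) ^ 2 =
      0 := by
    apply Finset.sum_eq_zero
    intro i _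
    rw [show 2 * N + 1 + i + 1 = 2 * N + 1 + (i + 1) by ring, x3, x3, ← pow_mul, ← pow_succ]
    ring
  have hD : x (2 * N + 1) = 1 / 8 := by
    have := x3 0
    simpa using this
  have hE : x (pl T L) = (1 / 8) ^ 2 ^ L := x3 L
  rw [hA, hB, hC, hD, hE]
  have := chain_neg L
  nlinarith

/-- **The equivalence.** -/
theorem sat_iff_QH_neg (S : List ER.Con) :
    Sat S ↔ ∃ x : ℕ → ℝ, QH (bsys S) (cl (bsys S)) x < 0 := by
  constructor
  · intro h
    obtain ⟨w, hw, hc⟩ := bsys_of_sat h
    obtain ⟨x, _, hx⟩ := QH_neg_of_sat (cl (bsys S)) hw hc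
    exact ⟨x, hx⟩
  · rintro ⟨x, hx⟩
    obtain ⟨w, hw⟩ := sat_of_QH_neg hx
    exact sat_of_bsys hw

end Pool.Agent.W955.SN
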