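import Pool.Agent.W955.SN.Red

/-!
# The reduction is computable in polynomial time
-/

namespace Pool.Agent.NPC.W955SN

open Pool.Agent.NPC Pool.Agent.NPC.ER Pool.Agent.H78R3.TSV Pool.Agent.NPC.H78TSV Pool.Agent.W955.SN

section

variable {α : Type} [TEnc α]

theorem poly_slack4 {N r : α → ℕ} (hN : Poly N) (hr : Poly r) :
    Poly (fun a => slack4 (N a) (r a)) := by
  have h1 := Poly.succ hr
  have h2 : Poly (fun a => N a + 1 + r a) := Poly.add (Poly.succ hN) hr
  exact Poly.pair (Poly.pair (Poly.const 4) (Poly.pair h1 h1))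
    (Poly.pair (Poly.pair (Poly.const 4) (Poly.pair h2 h2)) (Poly.const _))

theorem poly_cstep {M i : α → ℕ} (hM : Poly M) (hi : Poly i) :
    Poly (fun a => cstep (M a) (i a)) := by
  have h1 : Poly (fun a => M a + i a) := Poly.add hM hi
  have h2 : Poly (fun a => M a + i a + 1) := Poly.succ h1
  exact Poly.pair (Poly.pair (Poly.const 8) (Poly.pair h2 (Poly.const 0)))
    (Poly.pair (Poly.pair (Poly.const (-8)) (Poly.pair h1 h1)) (Poly.const _))

theorem poly_psys {T : α → List ER.Con} {L : α → ℕ} (hT : Poly T) (hL : UPoly L) :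
    Poly (fun a => psys (T a) (L a)) := by
  have hV := poly_svars hT
  have hM : Poly (fun a => 2 * (svars (T a)).length + 1) :=
    Poly.succ (Poly.mul (Poly.const 2) (Poly.length hV))
  refine Poly.append ?_ (Poly.append ?_ (Poly.cons ?_ (Poly.append ?_ ?_)))
  · exact Poly.map (F := fun a c => hcon (svars (T a)) c) hT
      (poly_hcon (hV.comp (Poly.fst Poly.id)) (Poly.snd Poly.id))
  · refine Poly.map (F := fun a r => slack4 (svars (T a)).length r) (UPoly.length hV).range ?_
    exact poly_slack4 ((Poly.length hV).comp (Poly.fst Poly.id)) (Poly.snd Poly.id)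
  · exact Poly.pair (Poly.pair (Poly.const 8) (Poly.pair hM (Poly.const 0))) (Poly.const _)
  · refine Poly.map (F := fun a i => cstep (2 * (svars (T a)).length + 1) i) hL.range ?_
    exact poly_cstep (hM.comp (Poly.fst Poly.id)) (Poly.snd Poly.id)
  · have h1 : Poly (fun a => 2 * (svars (T a)).length + 1 + L a) := Poly.add hM hL.toPoly
    exact Poly.cons (Poly.pair (Poly.pair (Poly.const 1) (Poly.pair h1 h1)) (Poly.const _))
      (Poly.const [])

theorem upoly_cl {T : α → List ER.Con} (hT : Poly T) : UPoly (fun a => cl (T a)) :=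
  UPoly.add (UPoly.mul (UPoly.const 11) (UPoly.length hT)) (UPoly.const 7)

theorem upoly_pn {T : α → List ER.Con} {L : α → ℕ} (hT : Poly T) (hL : UPoly L) :
    UPoly (fun a => pn (T a) (L a)) :=
  UPoly.add (UPoly.add (UPoly.mul (UPoly.const 2) (UPoly.length (poly_svars hT)))
    (UPoly.const 2)) hL

theorem poly_bforms {n : α → ℕ} {G : α → List QC} {p : α → ℕ × ℕ} (hn : UPoly n) (hG : Poly G)
    (hp : Poly p) : Poly (fun a => bforms (n a) (G a) (p a)) := by
  refine Poly.append (poly_forms hn hG) ?_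
  refine Poly.map (F := fun a _ => [((1 : ℤ), p a)]) hG ?_
  exact Poly.cons (Poly.pair (Poly.const 1) (hp.comp (Poly.fst Poly.id))) (Poly.const [])

theorem poly_inst2 {S : α → List ER.Con} (hS : Poly S) : Poly (fun a => inst2 (S a)) := by
  have hT := poly_bsys hS
  have hL : UPoly (fun a => cl (bsys (S a))) := upoly_cl hT
  have hG : Poly (fun a => iG (S a)) := poly_psys hT hL
  have hn : UPoly (fun a => iN (S a)) := upoly_pn hT hL
  have hpl : Poly (fun a => pl (bsys (S a)) (cl (bsys (S a)))) :=
    Poly.add (Poly.succ (Poly.mul (Poly.const 2) (Poly.length (poly_svars hT)))) hL.toPoly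
  have hF : Poly (fun a => iF (S a)) := poly_bforms hn hG (Poly.pair (Poly.const 0) hpl)
  refine Poly.pair (poly_tenL (UPoly.add hn (UPoly.length hF)) hF) ?_
  exact poly_intToRat (Poly.natCast (Poly.mul (Poly.const 48) (Poly.length hG)))

end

/-- SPECTRAL-NORM-EXCEED is `∃ℝ`-hard. -/
theorem exceed_hard : ERHard (lang SpectralNormExceed) :=
  ERHard.of_sys (poly_inst2 Poly.id) sat_iff_exceed

/-- SPECTRAL-NORM-BOUND is `∀ℝ`-hard. -/
theorem bound_hard : ARHard (lang SpectralNormBound) :=
  ARHard.of_sys (poly_inst2 Poly.id) sat_iff_not_bound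

end Pool.Agent.NPC.W955SN
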